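import Pool.Agent.U243.ACFBound

/-!
# The unramified period-index conjecture: modules of bounded complexity

`BrauerTheory` collects the known facts used.

* The triples `(X, A, E)` over an algebraically closed field are given by coefficients `a`: `X ⊂ ℙᵉ` is a smooth projective variety
  of dimension `d`, `A` an Azumaya algebra on `X`, and `E` a vector bundle with `A^{⊗ m} ≅ End(E)`, all given by equations and
  presentation matrices of sizes and degrees at most `e`. So the period of `α = [A] ∈ Br(X)` divides `m`, and all classes with
  this property occur for some `e`.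
* `Mod l d m e K a`: there is a coherent right `A`-module on `X` of generic rank `m^(d-1) · deg A`, given by a presentation of size
  and degree at most `l`. Such a module exists for some `l` if and only if `ind(α)` divides `m^(d-1)`.
* `data_fo`, `mod_fo`: for fixed numbers these are constructible conditions over `ℤ`, so first-order over algebraically closed
  fields.
* `q1_iff`: `Q1 d m K` says that `ind(α)` divides `m^(d-1)` for all smooth projective varieties of dimension `d` over `K` and all
  classes `α` whose period divides `m`; Q1 for `K` is `Q1 d m K` for all `d ≥ 1`, `m ≥ 1` (take `m = per(α)`).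
* `surfaces`: for `d ≤ 2` Q1 is true (Tsen, de Jong).
-/

set_option autoImplicit false

namespace Pool.Agent.Results.MP_43d240_ag.BoundedModules

open Pool.Agent.U243.ACF

/-- Azumaya algebras over algebraically closed fields, with the known facts that are used. -/
structure BrauerTheory where
  /-- the number of the coefficients of the triples `(X, A, E)` -/
  r : ℕ → ℕ → ℕ → ℕ
  /-- `a` gives a triple: `X_a` smooth projective of dimension `d`, `A_a` Azumaya, `E_a` with `A_a^{⊗ m} ≅ End(E_a)` -/
  Data : ∀ (d m e : ℕ) (K : Type) [Field K], (Fin (r d m e) → K) → Prop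
  /-- there is a coherent right `A_a`-module of generic rank `m^(d-1) · deg A_a` and of complexity at most `l` -/
  Mod : ℕ → ∀ (d m e : ℕ) (K : Type) [Field K], (Fin (r d m e) → K) → Prop
  /-- `ind(α)` divides `m^(d-1)` for all smooth projective varieties `X` of dimension `d` over `K` and all `α ∈ Br(X)` whose period
  divides `m` -/
  Q1 : ∀ (_d _m : ℕ) (K : Type) [Field K], Prop
  data_fo : ∀ d m e, FO1 (Data d m e)
  mod_fo : ∀ d m e, FO (fun l => Mod l d m e)
  mod_mono : ∀ d m e, Incr (fun l => Mod l d m e)
  q1_iff : ∀ (d m : ℕ) (K : Type) [Field K], IsAlgClosed K →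
    (Q1 d m K ↔ ∀ e a, Data d m e K a → ∃ l, Mod l d m e K a)
  surfaces : ∀ d m, 1 ≤ d → d ≤ 2 → 1 ≤ m → Q1 d m ℂ

variable (S : BrauerTheory)

/-- over `K`, for all triples `(X, A, E)` of complexity at most `e` there is a right `A`-module of generic rank
`m^(d-1) · deg A` and of complexity at most `l` -/
def Bounded (d m e l : ℕ) (K : Type) [Field K] : Prop :=
  ∀ a : Fin (S.r d m e) → K, S.Data d m e K a → S.Mod l d m e K a

/-- the bounds over all algebraically closed fields of characteristic zero or `p > l` -/
def BoundedForAllFields (d m : ℕ) : Prop :=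
  ∀ e, ∃ l, ∀ (K : Type) [Field K], IsAlgClosed K → (CharZero K ∨ ∃ p, l < p ∧ p.Prime ∧ CharP K p) →
    Bounded S d m e l K

/-- For all `d` and `m` the following are equivalent: `ind(α)` divides `m^(d-1)` for the classes of period dividing `m` on smooth
projective varieties of dimension `d` over `ℂ`; the same over all algebraically closed fields of characteristic zero; for every
`e` there is `l` with `Bounded d m e l ℂ`; the same over all algebraically closed fields of characteristic zero or `p > l`; the
same over the algebraic closure of `ℚ`; the same over some algebraically closed field of characteristic `p`, for infinitely many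
`p`. All of this is true for `d ≤ 2`. -/
theorem result :
    (∀ d m : ℕ, List.TFAE [
      S.Q1 d m ℂ,
      ∀ (K : Type) [Field K], IsAlgClosed K → CharZero K → S.Q1 d m K,
      ∀ e, ∃ l, Bounded S d m e l ℂ,
      BoundedForAllFields S d m,
      ∀ e, ∃ l, Bounded S d m e l (AlgebraicClosure ℚ),
      ∀ e, ∃ l, ∀ B, ∃ p, B < p ∧ p.Prime ∧ ∃ (K : Type) (_ : Field K), IsAlgClosed K ∧ CharP K p ∧
        Bounded S d m e l K]) ∧
    ∀ d m, 1 ≤ d → d ≤ 2 → 1 ≤ m → BoundedForAllFields S d m := by
  have key : ∀ d m : ℕ, List.TFAE [
      S.Q1 d m ℂ,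
      ∀ (K : Type) [Field K], IsAlgClosed K → CharZero K → S.Q1 d m K,
      ∀ e, ∃ l, Bounded S d m e l ℂ,
      BoundedForAllFields S d m,
      ∀ e, ∃ l, Bounded S d m e l (AlgebraicClosure ℚ),
      ∀ e, ∃ l, ∀ B, ∃ p, B < p ∧ p.Prime ∧ ∃ (K : Type) (_ : Field K), IsAlgClosed K ∧ CharP K p ∧
        Bounded S d m e l K] := by
    intro d m
    have t := fun e => tfae (P := fun _ K _ a => S.Data d m e K a) (Q := fun l => S.Mod l d m e)
      (fun _ => S.data_fo d m e) (S.mod_fo d m e) (fun _ _ _ _ _ _ _ h => h) (S.mod_mono d m e)
    have t01 := fun e => (t e).out 0 1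
    have t02 := fun e => (t e).out 0 2
    have t03 := fun e => (t e).out 0 3
    have t04 := fun e => (t e).out 0 4
    have h1 : S.Q1 d m ℂ ↔
        ∀ e, ∀ a : Fin (S.r d m e) → ℂ, (∀ _ : ℕ, S.Data d m e ℂ a) → ∃ l, S.Mod l d m e ℂ a := by
      rw [S.q1_iff d m ℂ inferInstance]
      constructor
      · intro h e a ha
        exact h e a (ha 0)
      · intro h e a ha
        exact h e a fun _ => ha
    tfae_have 1 ↔ 3 := h1.trans (forall_congr' t01)
    tfae_have 1 ↔ 4 := h1.trans (forall_congr' t02)
    tfae_have 1 ↔ 5 := h1.trans (forall_congr' t03)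
    tfae_have 1 ↔ 6 := h1.trans (forall_congr' t04)
    tfae_have 2 → 1 := fun h => h ℂ inferInstance inferInstance
    tfae_have 4 → 2 := by
      intro h K _ hK h0
      rw [S.q1_iff d m K hK]
      intro e a ha
      obtain ⟨l, hl⟩ := h e
      exact ⟨l, hl K hK (Or.inl h0) a ha⟩
    tfae_finish
  refine ⟨key, fun d m h1 h2 h3 => ?_⟩
  have k03 := (key d m).out 0 3
  exact k03.1 (S.surfaces d m h1 h2 h3)

end Pool.Agent.Results.MP_43d240_ag.BoundedModules
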