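import Pool.Agent.Y109.PI.Res
import Pool.Agent.Results.MP_43d240_ag.CurveTimesElliptic
import Pool.Agent.Results.MP_43d240_ag.RealMultiplication
import Pool.Agent.Results.MP_43d240_ag.IntersectionNumbers

/-! Unramified period-index for varieties which are dominated by curves times elliptic curves, by abelian
varieties, or by curves times abelian varieties, with degrees prime to the period.

Let `X` be a variety of dimension `d` over an algebraically closed field `k`, `F = k(X)`, and let `n` be prime to
the characteristic. Suppose that `X` is dominated by varieties `Y` of dimension `d` of one of the following kinds,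
where for every prime `p ∣ n` one of them has a degree prime to `p` over `X`.
(1) `Y = C × E_1 × ... × E_(d-1)`, `C` a curve, `E_i` elliptic curves. This holds for all quotients of such `Y`
by finite groups of orders prime to `n`, for example (`n` odd) for the Kummer varieties of products of elliptic
curves and the Calabi-Yau threefolds of Borcea and Voisin over `E_1 × E_2 × E_3`, and for the isotrivial
fibrations over a curve whose fibres are torsors under a product of elliptic curves, if the monodromy group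
has an order prime to `n` and a multisection of a degree prime to `n` exists. The classes in `Br(Y)` killed by
`n` are combinations of symbols with entries in the group generated by `k(C)ˣ` and two functions for
each `E_i`. So for all classes `β ∈ Br(X)` killed by `n` the index divides `n ^ (d-1)`: the conjecture holds if `n`
is the period.
(2) `Y` an abelian variety of dimension `d` with many divisor classes (`hord`, for instance with real
multiplication, or a product of elliptic curves), `n` squarefree: the index divides `n ^ (d-1)`.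
(3) `Y = C × A`, `A` an abelian variety of dimension `d - 1` with divisors whose intersection number is prime
to `p`: the index divides `n ^ (d-1)`.
If the degrees are not prime to `p`, the bounds have to be multiplied by the powers of the `p` which divide
the degrees.

Proof. The index of `β` divides a power of `n`, because `β` is a product of symbols. By restriction to the
function field of `Y` and the starting theorems the index divides `[k(Y) : F]` times the bound. -/

set_option autoImplicit false

open scoped TensorProduct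

namespace Pool.Agent.Results.MP_43d240_ag.PrimeToDegreeCovers

open Pool.Agent.Helper18.Br Pool.Agent.H552R3.SymBr Pool.Agent.H552R3.SymPred Pool.Agent.H552R3.Tsen
  Pool.Agent.Y109.PI Pool.Agent.N394.PX

universe u

/-- The subgroup of `Br(K)` generated by the symbols of degree `n` with entries in the group `G`. -/
def symbols {K : Type u} [Field K] (n : ℕ) (ζ : K) (G : Subgroup Kˣ) : Subgroup (BrauerGroup.{u, u} K) :=
  Subgroup.closure {γ | ∃ x ∈ G, ∃ y ∈ G, IsSym n ζ x y γ}

/-- The type of the classes on a curve times `r` elliptic curves: `α` is a combination of symbols of degree `n`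
with entries in the group generated by `Lˣ` and the `e_i, f_i`, where `L` has transcendence degree at most `1`
over `k`, and `e_i, f_i` (`i < r`) are algebraically dependent over `k` or satisfy `c e_i + d f_i = 1` with nonzero
`c, d ∈ L`. -/
def CurveElliptic (k K : Type u) [Field k] [Field K] [Algebra k K] (n : ℕ) (ζ : K) (r : ℕ)
    (α : BrauerGroup.{u, u} K) : Prop :=
  ∃ L : IntermediateField k K, Algebra.trdeg k L ≤ 1 ∧ ∃ e f : Fin r → Kˣ,
    (∀ i, ¬ AlgebraicIndependent k ![(e i : K), (f i : K)] ∨
      (∃ c ∈ L, ∃ d ∈ L, c ≠ 0 ∧ d ≠ 0 ∧ c * e i + d * f i = 1)) ∧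
    α ∈ symbols n ζ (Subgroup.closure ({x : Kˣ | (x : K) ∈ L} ∪ Set.range e ∪ Set.range f))

/-- The type of the classes on an abelian variety of dimension `g` with many divisor classes: `α` is a
combination of symbols of degree `n` with entries in the group generated by `kˣ` and `2 g` functions `z_u`,
with relations `∑ w_i(u, v) (z_u, z_v) = 0`, `i < g`, such that for no prime `p ∣ n` the number of the `c` with
`det (∑ c_i (w_i - w_i^T)) = 0` modulo `p` is divisible by `p`. -/
def ManyDivisors (k K : Type u) [Field k] [Field K] [Algebra k K] (n : ℕ) (ζ : K) (g : ℕ)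
    (α : BrauerGroup.{u, u} K) : Prop :=
  ∃ (z : Fin g ⊕ Fin g → Kˣ) (θ : Fin g ⊕ Fin g → Fin g ⊕ Fin g → BrauerGroup.{u, u} K)
    (w : Fin g → Fin g ⊕ Fin g → Fin g ⊕ Fin g → ℤ),
    (∀ u v, IsSym n ζ (z u) (z v) (θ u v)) ∧
    (∀ p : ℕ, p.Prime → p ∣ n → ¬ p ∣ Nat.card {c : Fin g → ZMod p //
      (∑ i, c i • (Matrix.of fun u v => ((w i u v - w i v u : ℤ) : ZMod p))).det = 0}) ∧
    (∀ i, ∏ u, ∏ v, θ u v ^ w i u v = 1) ∧
    α ∈ symbols n ζ (Subgroup.closure
      (Set.range (Units.map (algebraMap k K).toMonoidHom) ∪ Set.range z))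

/-- The type of the classes on a curve times an abelian variety of dimension `g`: `α` is a combination of symbols
of degree `n` with entries in the group generated by `Lˣ`, `L` of transcendence degree at most `1` over `k`, and
`2 g` functions `z_u`; there are relations `w_i` between the symbols `(z_u, z_v)`, modulo symbols with an entry
in `L` and the other one in `L` or among the `z_u`, and `N > 0` is an integral combination of their intersection
numbers, the coefficients of `X_1 ⋯ X_g` in the Pfaffians of `∑ X_i (w_(e_i) - w_(e_i)^T)`. -/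
def CurveAbelian (k K : Type u) [Field k] [Field K] [Algebra k K] (n : ℕ) (ζ : K) (g N : ℕ)
    (α : BrauerGroup.{u, u} K) : Prop :=
  ∃ L : IntermediateField k K, Algebra.trdeg k L ≤ 1 ∧
    ∃ (z : Fin (2 * g) → Kˣ) (θ : Fin (2 * g) → Fin (2 * g) → BrauerGroup.{u, u} K) (s : ℕ)
      (w : Fin s → Fin (2 * g) → Fin (2 * g) → ℤ),
      (∀ u v, IsSym n ζ (z u) (z v) (θ u v)) ∧
      (∀ i, ∏ u, ∏ v, θ u v ^ w i u v ∈ Subgroup.closure {γ | ∃ a b : Kˣ, (a : K) ∈ L ∧
        ((b : K) ∈ L ∨ b ∈ Set.range z) ∧ IsSym n ζ a b γ}) ∧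
      0 < N ∧ (N : ℤ) ∈ Ideal.span (Set.range fun e : Fin g → Fin s =>
        inter g fun i => Matrix.of fun u v => w (e i) u v - w (e i) v u) ∧
      α ∈ symbols n ζ (Subgroup.closure ({a : Kˣ | (a : K) ∈ L} ∪ Set.range z))

/-- For every prime `p ∣ n` there is a finite extension `K` of `F` whose degree is divisible at most by
`p ^ c p`, such that the restriction of `β` to `K` satisfies `T p K`. -/
def Covered {k F : Type u} [Field k] [Field F] [Algebra k F] (n : ℕ) (c : ℕ → ℕ)
    (β : BrauerGroup.{u, u} F)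
    (T : ℕ → ∀ (K : Type u) [Field K] [Algebra k K], BrauerGroup.{u, u} K → Prop) : Prop :=
  ∀ p : ℕ, p.Prime → p ∣ n → ∃ (K : Type u) (_ : Field K) (_ : Algebra F K) (_ : Algebra k K)
    (_ : IsScalarTower k F K) (_ : FiniteDimensional F K),
    (Module.finrank F K).factorization p ≤ c p ∧ T p K (res K β)

/-- the index of a product of symbols divides a power of `n` -/
theorem pow_bound {F : Type u} [Field F] {n : ℕ} (hn : 0 < n) {ζ : F} (hζ : IsPrimitiveRoot ζ n)
    {β : BrauerGroup.{u, u} F} (hβ : β ∈ Subgroup.closure {γ | ∃ a b : Fˣ, IsSym n ζ a b γ}) :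
    ∃ j : ℕ, IndDvd β (n ^ j) := by
  have key : (∃ j : ℕ, HasRep β (n ^ j)) ∧ ∃ j : ℕ, HasRep β⁻¹ (n ^ j) := by
    induction hβ using Subgroup.closure_induction with
    | mem γ hγ =>
      obtain ⟨a, b, hab⟩ := hγ
      rw [isSym_iff hn hζ] at hab
      subst hab
      refine ⟨⟨1, by rw [pow_one]; exact hasRep_symCl hn hζ a b⟩, ⟨1, ?_⟩⟩
      have h : (symCl hn hζ a b)⁻¹ = symCl hn hζ a⁻¹ b := by
        rw [← symHom_apply, ← symHom_apply, map_inv]
        rfl
      rw [pow_one, h]
      exact hasRep_symCl hn hζ a⁻¹ b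
    | one =>
      refine ⟨⟨0, by rw [pow_zero]; exact hasRep_one⟩, ⟨0, ?_⟩⟩
      rw [pow_zero, inv_one]
      exact hasRep_one
    | mul x y _ _ hx hy =>
      obtain ⟨⟨i, hi⟩, ⟨i', hi'⟩⟩ := hx
      obtain ⟨⟨j, hj⟩, ⟨j', hj'⟩⟩ := hy
      refine ⟨⟨i + j, by rw [pow_add]; exact hi.mul hj⟩, ⟨j' + i', ?_⟩⟩
      rw [pow_add, mul_inv_rev]
      exact hj'.mul hi'
    | inv x _ hx =>
      refine ⟨hx.2, ?_⟩
      rw [inv_inv]
      exact hx.1
  obtain ⟨j, hj⟩ := key.1
  exact ⟨j, hj.indDvd⟩

/-- arithmetic -/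
theorem dvd_of_local {n t M : ℕ} (hn : 0 < n) (hM : M ≠ 0) (j : ℕ) (ht : t ∣ n ^ j)
    (h : ∀ p : ℕ, p.Prime → p ∣ n → ∃ C : ℕ, C ≠ 0 ∧ C.factorization p ≤ M.factorization p ∧ t ∣ C) :
    t ∣ M := by
  have hnj : n ^ j ≠ 0 := pow_ne_zero _ hn.ne'
  have ht0 : t ≠ 0 := fun h0 => hnj (by rw [h0] at ht; exact zero_dvd_iff.1 ht)
  rw [← Nat.factorization_le_iff_dvd ht0 hM]
  intro p
  by_cases hp : p.Prime
  · by_cases hpn : p ∣ n
    · obtain ⟨C, hC0, hC, htC⟩ := h p hp hpn
      exact ((Nat.factorization_le_iff_dvd ht0 hC0).2 htC p).trans hC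
    · have h1 := (Nat.factorization_le_iff_dvd ht0 hnj).2 ht p
      rw [Nat.factorization_pow, Finsupp.smul_apply, Nat.factorization_eq_zero_of_not_dvd hpn,
        smul_zero] at h1
      exact h1.trans (Nat.zero_le _)
  · rw [Nat.factorization_eq_zero_of_not_prime _ hp]
    exact Nat.zero_le _

/-- the factor for the degrees -/
noncomputable def deg (n : ℕ) (c : ℕ → ℕ) : ℕ := ∏ p ∈ n.primeFactors, p ^ c p

theorem deg_ne (n : ℕ) (c : ℕ → ℕ) : deg n c ≠ 0 := by
  unfold deg
  exact Finset.prod_ne_zero_iff.2 fun p hp => pow_ne_zero _ (Nat.prime_of_mem_primeFactors hp).ne_zero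

theorem deg_fact {n : ℕ} (hn : 0 < n) (c : ℕ → ℕ) {p : ℕ} (hp : p.Prime) (hpn : p ∣ n) :
    c p ≤ (deg n c).factorization p := by
  have h1 : p ^ c p ∣ deg n c :=
    Finset.dvd_prod_of_mem (fun p => p ^ c p) (Nat.mem_primeFactors.2 ⟨hp, hpn, hn.ne'⟩)
  exact (hp.pow_dvd_iff_le_factorization (deg_ne n c)).1 h1

/-- the general principle -/
theorem principle {k F : Type u} [Field k] [Field F] [Algebra k F] {n : ℕ} (hn : 0 < n) {ζ : F}
    (hζ : IsPrimitiveRoot ζ n) {β : BrauerGroup.{u, u} F}
    (hβ : β ∈ Subgroup.closure {γ | ∃ a b : Fˣ, IsSym n ζ a b γ}) (c : ℕ → ℕ) (B : ℕ) (hB : B ≠ 0)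
    (T : ℕ → ∀ (K : Type u) [Field K] [Algebra k K], BrauerGroup.{u, u} K → Prop)
    (hT : ∀ p : ℕ, p.Prime → p ∣ n → ∀ (K : Type u) [Field K] [Algebra k K]
      (α : BrauerGroup.{u, u} K), T p K α → ∃ B' : ℕ, B' ≠ 0 ∧
        B'.factorization p ≤ B.factorization p ∧ IndDvd α B')
    (h : Covered (k := k) n c β T) : IndDvd β (B * deg n c) := by
  obtain ⟨j, hj⟩ := pow_bound hn hζ hβ
  intro D _ _ _ _ hD
  refine dvd_of_local hn (mul_ne_zero hB (deg_ne n c)) j (hj D hD) ?_
  intro p hp hpn
  obtain ⟨K, _, _, _, _, _, h1, h2⟩ := h p hp hpn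
  obtain ⟨B', h3, h4, h5⟩ := hT p hp hpn K _ h2
  have hF : Module.finrank F K ≠ 0 := Module.finrank_pos.ne'
  refine ⟨Module.finrank F K * B', mul_ne_zero hF h3, ?_, (IndDvd.of_res K h5) D hD⟩
  rw [Nat.factorization_mul hF h3, Nat.factorization_mul hB (deg_ne n c), Finsupp.add_apply,
    Finsupp.add_apply, add_comm]
  exact Nat.add_le_add h4 (h1.trans (deg_fact hn c hp hpn))

/-- **Unramified period-index for varieties dominated by products with degrees prime to the period.** Let `k` be
an algebraically closed field, `F` an extension of `k`, `ζ ∈ k` a primitive `n`-th root of unity and `β ∈ Br(F)`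
a class generated by symbols of degree `n` (by Merkurjev and Suslin: killed by `n`). Suppose that for every prime
`p ∣ n` there is a finite extension `K` of `F` with `v_p [K : F] ≤ c p` such that the restriction of `β` to `K`
(1) is of the type `CurveElliptic` with `r` pairs; then the index of `β` divides `n ^ r * ∏_(p ∣ n) p ^ c p`;
(2) is of the type `ManyDivisors` for `g > 0`, and `n` is squarefree; then the index of `β` divides
`n ^ (g - 1) * ∏_(p ∣ n) p ^ c p`;
(3) is of the type `CurveAbelian` with an `N` not divisible by `p`; then the index of `β` divides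
`n ^ g * ∏_(p ∣ n) p ^ c p`. -/
theorem result {k F : Type u} [Field k] [IsAlgClosed k] [Field F] [Algebra k F] (n : ℕ) (hn : 0 < n)
    (ζ : k) (hζ : IsPrimitiveRoot ζ n) (β : BrauerGroup.{u, u} F)
    (hβ : β ∈ Subgroup.closure {γ | ∃ a b : Fˣ, IsSym n (algebraMap k F ζ) a b γ}) (c : ℕ → ℕ) :
    (∀ r : ℕ, Covered (k := k) n c β (fun _ K _ _ α => CurveElliptic k K n (algebraMap k K ζ) r α) →
      IndDvd β (n ^ r * deg n c)) ∧
    (∀ g : ℕ, 0 < g → Squarefree n →
      Covered (k := k) n c β (fun _ K _ _ α => ManyDivisors k K n (algebraMap k K ζ) g α) →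
      IndDvd β (n ^ (g - 1) * deg n c)) ∧
    (∀ g : ℕ, Covered (k := k) n c β (fun p K _ _ α =>
        ∃ N : ℕ, ¬ p ∣ N ∧ CurveAbelian k K n (algebraMap k K ζ) g N α) →
      IndDvd β (n ^ g * deg n c)) := by
  have hF : IsPrimitiveRoot (algebraMap k F ζ) n := hζ.map_of_injective (algebraMap k F).injective
  refine ⟨fun r h => ?_, fun g hg hsq h => ?_, fun g h => ?_⟩
  · refine principle (k := k) hn hF hβ c (n ^ r) (pow_ne_zero _ hn.ne') _ ?_ h
    intro p _ _ K _ _ α hα
    obtain ⟨L, hL, e, f, hef, hα⟩ := hα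
    exact ⟨n ^ r, pow_ne_zero _ hn.ne', le_rfl, CurveTimesElliptic.result n hn (algebraMap k K ζ)
      (hζ.map_of_injective (algebraMap k K).injective) L hL r e f hef _ rfl α hα⟩
  · refine principle (k := k) hn hF hβ c (n ^ (g - 1)) (pow_ne_zero _ hn.ne') _ ?_ h
    intro p _ _ K _ _ α hα
    obtain ⟨z, θ, w, hθ, hord, hrel, hα⟩ := hα
    exact ⟨n ^ (g - 1), pow_ne_zero _ hn.ne', le_rfl, ((RealMultiplication.general (k := k) n hn
      (algebraMap k K ζ) (hζ.map_of_injective (algebraMap k K).injective) g hg z θ hθ w hord).2 hsq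
      hrel _ rfl α hα).2⟩
  · refine principle (k := k) hn hF hβ c (n ^ g) (pow_ne_zero _ hn.ne') _ ?_ h
    intro p hp hpn K _ _ α hα
    obtain ⟨N, hpN, L, hL, z, θ, s, w, hθ, hrel, hN0, hN, hα⟩ := hα
    have h1 := ((IntersectionNumbers.result n hn ζ hζ L g z θ hθ w hrel N hN0 hN _ rfl _ rfl α
      hα).1 hL).1
    have h2 : ∏ q ∈ n.primeFactors, q ^ N.factorization q ≠ 0 :=
      Finset.prod_ne_zero_iff.2 fun q hq => pow_ne_zero _ (Nat.prime_of_mem_primeFactors hq).ne_zero
    have hng : n ^ g ≠ 0 := pow_ne_zero _ hn.ne'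
    refine ⟨_, mul_ne_zero hng h2, ?_, h1⟩
    rw [Nat.factorization_mul hng h2, Finsupp.add_apply]
    have h3 : (∏ q ∈ n.primeFactors, q ^ N.factorization q).factorization p = 0 := by
      refine Nat.factorization_eq_zero_of_not_dvd fun h4 => ?_
      obtain ⟨q, hq, h5⟩ := (hp.prime.dvd_finsetProd_iff _).1 h4
      have h6 : p = q :=
        (Nat.prime_dvd_prime_iff_eq hp (Nat.prime_of_mem_primeFactors hq)).1 (hp.dvd_of_dvd_pow h5)
      subst h6
      rw [Nat.factorization_eq_zero_of_not_dvd hpN, pow_zero] at h5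
      exact hp.one_lt.ne' (Nat.dvd_one.1 h5)
    rw [h3, add_zero]

end Pool.Agent.Results.MP_43d240_ag.PrimeToDegreeCovers
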